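import Pool.Agent.V5helper27.BM.Stm

/-!
# Project BM, job ITER: the uniform bound at the radii `exp (1/m)` from Binder's conjecture
-/

set_option autoImplicit false

open Complex Filter Topology Set Metric MeasureTheory

namespace Pool.Agent.V5helper14.BM

open Pool.Agent.V5helper27.BM

lemma isSig_id : IsSig (fun z => z) (fun _ => 0) := by
  refine ⟨differentiableOn_id, Set.injOn_id _, ⟨0, ?_⟩, differentiableOn_const _, ?_, tendsto_const_nhds⟩
  · simp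
  · intro z hz
    simp

lemma norm_cexp_xt (x θ : ℝ) : ‖cexp (x + θ * I)‖ = Real.exp x := by
  rw [Complex.norm_exp]; simp

lemma cont_pt {ψ h : ℂ → ℂ} (hs : IsSig ψ h) {x : ℝ} (hx : 0 < x) (t : ℂ) :
    Continuous fun θ : ℝ => Real.exp (t * h (cexp (x + θ * I))).re := by
  have h1 : ContinuousOn h {z : ℂ | 1 < ‖z‖} := hs.2.2.2.1.continuousOn
  have h2 : Continuous fun θ : ℝ => cexp ((x:ℂ) + θ * I) := by fun_prop
  have h3 : Continuous fun θ : ℝ => h (cexp (x + θ * I)) := by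
    refine h1.comp_continuous h2 fun θ => ?_
    show 1 < ‖cexp (x + θ * I)‖
    rw [norm_cexp_xt]
    exact Real.one_lt_exp_iff.2 hx
  exact Real.continuous_exp.comp (Complex.continuous_re.comp (continuous_const.mul h3))

lemma pm_nonneg (t : ℂ) (x : ℝ) (h : ℂ → ℂ) : 0 ≤ pm t x h := by
  unfold pm
  exact mul_nonneg (by positivity)
    (intervalIntegral.integral_nonneg (by positivity) fun θ _ => (Real.exp_pos _).le)

lemma pm_zero (t : ℂ) (x : ℝ) : pm t x (fun _ => 0) = 1 := by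
  unfold pm
  have := Real.pi_pos
  simp
  field_simp

lemma pm_close {ψ h ψ' h' : ℂ → ℂ} (hs : IsSig ψ h) (hs' : IsSig ψ' h') {x : ℝ} (hx : 0 < x) (t : ℂ) {D : ℝ}
    (hD : ∀ z : ℂ, ‖z‖ = Real.exp x → ‖h' z - h z‖ ≤ D) : Real.exp (-(‖t‖ * D)) * pm t x h ≤ pm t x h' := by
  unfold pm
  rw [mul_left_comm]
  refine mul_le_mul_of_nonneg_left ?_ (by positivity)
  rw [← intervalIntegral.integral_const_mul]
  refine intervalIntegral.integral_mono_on (by positivity) ?_ ?_ ?_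
  · exact (continuous_const.mul (cont_pt hs hx t)).intervalIntegrable _ _
  · exact (cont_pt hs' hx t).intervalIntegrable _ _
  · intro θ _
    rw [← Real.exp_add]
    apply Real.exp_le_exp.2
    have h1 := hD (cexp (x + θ * I)) (norm_cexp_xt x θ)
    have h2 : (t * h (cexp (x + θ * I))).re - (t * h' (cexp (x + θ * I))).re ≤ ‖t‖ * D := by
      have e : (t * h (cexp (x + θ * I))).re - (t * h' (cexp (x + θ * I))).re =
          (t * (h (cexp (x + θ * I)) - h' (cexp (x + θ * I)))).re := by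
        rw [mul_sub, Complex.sub_re]
      rw [e]
      refine (Complex.re_le_norm _).trans ?_
      rw [norm_mul]
      refine mul_le_mul_of_nonneg_left ?_ (norm_nonneg _)
      rw [norm_sub_rev]
      exact h1
    linarith

lemma pmean_eq (t : ℂ) (y : ℝ) (h : ℂ → ℂ) : pmean t (Real.exp y) h = pm t y h := by
  unfold pmean pm circ
  congr 1
  refine intervalIntegral.integral_congr fun θ _ => ?_
  rw [Complex.norm_exp, Complex.exp_add, Complex.ofReal_exp]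

lemma q_le {y : ℝ} (hy : 0 < y) (hy2 : y ≤ 1 / 2) :
    0 < Real.exp y ^ 2 / (Real.exp y ^ 2 - 1) ∧ Real.exp y ^ 2 / (Real.exp y ^ 2 - 1) ≤ 1 / y := by
  have h1 : 2 * y + 1 ≤ Real.exp y ^ 2 := by
    rw [← Real.exp_nat_mul]
    push_cast
    exact Real.add_one_le_exp _
  have h2 : 0 < Real.exp y ^ 2 - 1 := by linarith
  refine ⟨by positivity, ?_⟩
  rw [div_le_div_iff₀ h2 hy]
  nlinarith

/-- all iterates are of class `Σ` -/
lemma Hs_isSig {l Φ : ℂ → ℂ} {A : ℝ} (hD : Dat l Φ A) {m : ℕ} (hm : 2 ≤ m) (n : ℕ) :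
    ∃ ψ : ℂ → ℂ, IsSig ψ (Hs l Φ A m n) := by
  induction n with
  | zero => exact ⟨_, isSig_id⟩
  | succ n ih =>
    obtain ⟨ψ, hψ⟩ := ih
    have h2 : 2 ≤ m ^ (n + 1) := by
      calc 2 ≤ m := hm
        _ = m ^ 1 := (pow_one m).symm
        _ ≤ m ^ (n + 1) := Nat.pow_le_pow_right (by omega) (by omega)
    obtain ⟨ψ', h'⟩ := hD.tr (m ^ (n + 1)) h2 ψ _ hψ
    exact ⟨ψ', h'⟩

/-- `a ≤ b` if `a ^ n ≤ D b ^ n` for all large `n` -/
lemma le_of_pow_le {a b D : ℝ} (hb : 0 < b) (N : ℕ) (h : ∀ n : ℕ, N ≤ n → a ^ n ≤ D * b ^ n) : a ≤ b := by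
  by_contra hab
  push Not at hab
  have h1 : 1 < a / b := (one_lt_div hb).2 hab
  have h2 := tendsto_pow_atTop_atTop_of_one_lt h1
  obtain ⟨n, hn1, hn2⟩ := ((h2.eventually_gt_atTop D).and (eventually_ge_atTop N)).exists
  have h3 := h n hn2
  rw [div_pow, lt_div_iff₀ (pow_pos hb n)] at hn1
  linarith

theorem iterl (hsm : S_sm) (hseq : S_seq) : S_iter := by
  intro hB
  obtain ⟨A, C, δ, hC, hδ, H⟩ := hsm
  obtain ⟨m₁, hm₁⟩ := exists_nat_gt (1 / δ)
  refine ⟨3 * C, max 2 m₁, by positivity, le_max_left _ _, ?_⟩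
  intro ψ h hs t ht m hm
  have hm2 : 2 ≤ m := (le_max_left _ _).trans hm
  have hmm : m₁ ≤ m := (le_max_right _ _).trans hm
  have hm0 : (0 : ℝ) < m := by positivity
  have hm2' : (2 : ℝ) ≤ m := by exact_mod_cast hm2
  have hx0 : (0 : ℝ) < 1 / m := by positivity
  have hxδ : (1 : ℝ) / m < δ := by
    have : 1 / δ < m := hm₁.trans_le (by exact_mod_cast hmm)
    rw [div_lt_iff₀ hδ] at this
    rw [div_lt_iff₀ hm0]
    linarith
  obtain ⟨l, Φ, hD, hM⟩ := H ψ h hs t (1 / m) hx0 hxδ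
  set E : ℝ := Real.exp (-C - C * ‖t‖ * (1 + Real.sqrt (LR (Real.exp (1 / m))))) with hE
  have hE0 : 0 < E := Real.exp_pos _
  set P : ℝ := pm t (1 / m) h with hP
  have hP0 : 0 ≤ P := pm_nonneg _ _ _
  have hEP : 0 ≤ E * P := by positivity
  -- the induction
  have hind : ∀ n : ℕ, (E * P) ^ n ≤ pm t (1 / (m : ℝ) ^ (n + 1)) (Hs l Φ A m n) := by
    intro n
    induction n with
    | zero =>
      rw [pow_zero]
      exact (pm_zero t _).symm.le
    | succ n ih =>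
      have h2 : 2 ≤ m ^ (n + 1) := by
        calc 2 ≤ m := hm2
          _ = m ^ 1 := (pow_one m).symm
          _ ≤ m ^ (n + 1) := Nat.pow_le_pow_right (by omega) (by omega)
      obtain ⟨ψ₁, hψ₁⟩ := Hs_isSig hD hm2 n
      have h3 := hM (m ^ (n + 1)) h2 ψ₁ _ hψ₁
      push_cast at h3
      rw [show (1 : ℝ) / m / (m : ℝ) ^ (n + 1) = 1 / (m : ℝ) ^ (n + 1 + 1) by
        rw [div_div, ← pow_succ']] at h3
      calc (E * P) ^ (n + 1) = E * (E * P) ^ n * P := by ring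
        _ ≤ E * pm t (1 / (m : ℝ) ^ (n + 1)) (Hs l Φ A m n) * P := by gcongr
        _ ≤ _ := h3
  obtain ⟨ψ', h', hs', C', hC'⟩ := hseq l Φ A hD m hm2
  have hlow : ∀ n : ℕ, Real.exp (-(‖t‖ * C')) * (E * P) ^ n ≤ pm t (1 / (m : ℝ) ^ (n + 1)) h' := by
    intro n
    obtain ⟨ψ₁, hψ₁⟩ := Hs_isSig hD hm2 n
    refine le_trans (mul_le_mul_of_nonneg_left (hind n) (Real.exp_pos _).le) ?_
    exact pm_close hψ₁ hs' (by positivity) t fun z hz => hC' n z hz
  -- Binder's conjecture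
  have hbd : ∀ ε : ℝ, 0 < ε → E * P ≤ (m : ℝ) ^ (‖t‖ ^ 2 / 4 + ε) := by
    intro ε hε
    obtain ⟨K, R₀, hR₀, hK⟩ := hB ψ' h' hs' t ht ε hε
    set α : ℝ := ‖t‖ ^ 2 / 4 + ε with hα
    have hα0 : 0 < α := by positivity
    have htend : Tendsto (fun n : ℕ => Real.exp (1 / (m : ℝ) ^ (n + 1))) atTop (𝓝 1) := by
      have h1 : Tendsto (fun n : ℕ => ((1 : ℝ) / m) ^ (n + 1)) atTop (𝓝 0) := by
        refine (tendsto_pow_atTop_nhds_zero_of_lt_one hx0.le ?_).comp (tendsto_add_atTop_nat 1)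
        rw [div_lt_one hm0]
        linarith
      have h2 : Tendsto (fun n : ℕ => Real.exp (((1 : ℝ) / m) ^ (n + 1))) atTop (𝓝 (Real.exp 0)) :=
        (Real.continuous_exp.tendsto 0).comp h1
      rw [Real.exp_zero] at h2
      refine h2.congr fun n => ?_
      rw [one_div_pow]
    obtain ⟨N, hN⟩ := eventually_atTop.1 (htend.eventually_lt_const hR₀)
    refine le_of_pow_le (D := |K| * Real.exp (‖t‖ * C') * (m : ℝ) ^ α) (Real.rpow_pos_of_pos hm0 _) N
      fun n hn => ?_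
    have hy0 : (0 : ℝ) < 1 / (m : ℝ) ^ (n + 1) := by positivity
    have hy2 : (1 : ℝ) / (m : ℝ) ^ (n + 1) ≤ 1 / 2 := by
      refine one_div_le_one_div_of_le two_pos ?_
      calc (2 : ℝ) ≤ m := hm2'
        _ = (m : ℝ) ^ 1 := (pow_one _).symm
        _ ≤ (m : ℝ) ^ (n + 1) := pow_le_pow_right₀ (by linarith) (by omega)
    have h1 := hK (Real.exp (1 / (m : ℝ) ^ (n + 1))) (Real.one_lt_exp_iff.2 hy0) (hN n hn)
    rw [pmean_eq] at h1
    obtain ⟨hq0, hq⟩ := q_le hy0 hy2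
    rw [one_div_one_div] at hq
    have h2 : K * (Real.exp (1 / (m : ℝ) ^ (n + 1)) ^ 2 / (Real.exp (1 / (m : ℝ) ^ (n + 1)) ^ 2 - 1)) ^ α ≤
        |K| * ((m : ℝ) ^ (n + 1)) ^ α := by
      refine mul_le_mul (le_abs_self K) (Real.rpow_le_rpow hq0.le hq hα0.le) (Real.rpow_nonneg hq0.le _)
        (abs_nonneg K)
    have h3 : ((m : ℝ) ^ (n + 1)) ^ α = ((m : ℝ) ^ α) ^ n * (m : ℝ) ^ α := by
      rw [← Real.rpow_natCast, ← Real.rpow_mul hm0.le, mul_comm, Real.rpow_mul hm0.le, Real.rpow_natCast,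
        pow_succ]
    have h4 := (hlow n).trans (h1.trans h2)
    rw [h3, Real.exp_neg, inv_mul_le_iff₀ (Real.exp_pos _)] at h4
    calc (E * P) ^ n ≤ Real.exp (‖t‖ * C') * (|K| * (((m : ℝ) ^ α) ^ n * (m : ℝ) ^ α)) := h4
      _ = _ := by ring
  have hlim : E * P ≤ (m : ℝ) ^ (‖t‖ ^ 2 / 4) := by
    have h1 : Tendsto (fun ε : ℝ => (m : ℝ) ^ (‖t‖ ^ 2 / 4 + ε)) (𝓝[>] 0) (𝓝 ((m : ℝ) ^ (‖t‖ ^ 2 / 4))) := by
      have h2 : ContinuousAt (fun ε : ℝ => (m : ℝ) ^ (‖t‖ ^ 2 / 4 + ε)) 0 := by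
        refine ContinuousAt.rpow continuousAt_const (by fun_prop) (Or.inl hm0.ne')
      have h3 := h2.tendsto
      rw [add_zero] at h3
      exact h3.mono_left nhdsWithin_le_nhds
    refine ge_of_tendsto h1 ?_
    filter_upwards [self_mem_nhdsWithin] with ε hε
    exact hbd ε hε
  -- the constant
  have hLR : LR (Real.exp (1 / m)) ≤ Real.log m := by
    obtain ⟨hq0, hq⟩ := q_le hx0 (one_div_le_one_div_of_le two_pos hm2')
    rw [one_div_one_div] at hq
    exact Real.log_le_log hq0 hq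
  have hsq : Real.sqrt (LR (Real.exp (1 / m))) ≤ Real.sqrt (Real.log m) := Real.sqrt_le_sqrt hLR
  have hP1 : P ≤ E⁻¹ * (m : ℝ) ^ (‖t‖ ^ 2 / 4) := by
    rw [le_inv_mul_iff₀ hE0]
    exact hlim
  refine hP1.trans (mul_le_mul_of_nonneg_right ?_ (Real.rpow_nonneg hm0.le _))
  rw [hE, ← Real.exp_neg]
  apply Real.exp_le_exp.2
  have ht0 := norm_nonneg t
  have hs0 := Real.sqrt_nonneg (Real.log m)
  have e1 : C * ‖t‖ * Real.sqrt (LR (Real.exp (1 / m))) ≤ C * ‖t‖ * Real.sqrt (Real.log m) :=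
    mul_le_mul_of_nonneg_left hsq (by positivity)
  have e2 : C * ‖t‖ ≤ C * 2 := mul_le_mul_of_nonneg_left ht hC
  have e3 : 0 ≤ C * ‖t‖ * Real.sqrt (Real.log m) := by positivity
  nlinarith

end Pool.Agent.V5helper14.BM
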